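import Pool.Agent.TH577.CO.Final
set_option autoImplicit false

/-!
Compact spaces whose small closures are Eberlein compact: a consistent negative answer.

* For every infinite cardinal `κ` a notion of forcing forces that there are no new subsets of `κ`,
  that `κ⁺` is preserved, and that `κ⁺` has a nonreflecting stationary set of points of countable
  cofinality (`HypN`, in the forcing language of `Pool.Agent.Helper669.Forcing`: a sentence is the
  set of the conditions which force it).
* If `κ⁺` has such a stationary set (`NonRef`; `Nonreflecting` is the same with the notions of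
  Mathlib) then some compact space is not Corson compact, a fortiori not Eberlein compact, although
  the closures of all its subsets of size at most `κ` are Eberlein compact.

For `κ = 𝔠` this says that the answer to the question is consistently negative.
-/

namespace Pool.Agent.Results.MP_ba6bfd_gt.ConsistentlyNo

open Cardinal Pool.Agent.W869.CC Pool.Agent.TH577.CO

theorem result :
    -- the hypothesis can be forced
    (∀ κ : Cardinal.{0}, ℵ₀ ≤ κ → ∃ (P : Type) (_ : Preorder P),
      Nonempty P ∧ ∀ p : P, p ∈ HypN P κ) ∧
    -- the meaning of the hypothesis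
    (∀ κ : Cardinal.{0}, ℵ₀ ≤ κ →
      ((∃ S : (Order.succ κ).ord.ToType → Prop, NonRef S) ↔
        ∃ S : Set (Order.succ κ).ord.ToType, Nonreflecting S)) ∧
    -- the hypothesis gives a counterexample, for `κ = 𝔠` one as in the question
    (∀ κ : Cardinal.{0}, ℵ₀ ≤ κ → (∃ S : (Order.succ κ).ord.ToType → Prop, NonRef S) →
      ∃ (X : Type) (_ : TopologicalSpace X), CompactSpace X ∧ T2Space X ∧
        (∀ A : Set X, #A ≤ κ → EberleinLike (closure A)) ∧ ¬ EberleinLike X ∧ ¬ CorsonLike X) := by
  refine ⟨fun κ hκ => (consistently hκ).1, fun κ hκ => (consistently hκ).2.1, fun κ hκ h => ?_⟩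
  obtain ⟨X, h1, h2, h3, h4, h5⟩ := (consistently hκ).2.2 h
  exact ⟨X, h1, h2, h3, h4, fun h6 => h5 h6.corson, h5⟩

end Pool.Agent.Results.MP_ba6bfd_gt.ConsistentlyNo
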